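import Pool.Agent.Helper23_LAP.Stmts

/-!
# Squad LAP: module ANB (solution of the recursion)
-/

set_option autoImplicit false

namespace Pool.Agent.LAP.H50

open scoped Classical

/-- ANB. -/
theorem anb : ANBStmt := by
  intro Q k₀ c hQ hR
  obtain ⟨c', hc', hcc⟩ : ∃ c' : ℝ, 0 ≤ c' ∧ c ≤ c' := ⟨max c 0, le_max_right _ _, le_max_left _ _⟩
  obtain ⟨C, hC1, hC2⟩ : ∃ C : ℝ, 2 * c' ≤ C ∧ (k₀ : ℝ) ≤ C :=
    ⟨max (2 * c') k₀, le_max_left _ _, le_max_right _ _⟩
  refine ⟨C, fun k => ?_⟩
  have hC0 : 0 ≤ C := le_trans (by positivity) hC2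
  induction k using Nat.strong_induction_on with
  | _ k ih =>
    intro hk
    have hkr : (1 : ℝ) ≤ k := by exact_mod_cast hk
    have hlog : 0 ≤ Real.log k := Real.log_nonneg hkr
    have hx1 : (1 : ℝ) ≤ (1 + Real.log k) ^ 20 := one_le_pow₀ (by linarith)
    by_cases hbig : k < k₀
    · -- small values
      refine ⟨2 * k, hQ k, ?_⟩
      have h2 : (k : ℝ) ≤ k₀ := by exact_mod_cast hbig.le
      have h3 : (k : ℝ) ≤ C * (1 + Real.log k) ^ 20 := by
        calc (k : ℝ) ≤ C * 1 := by linarith
          _ ≤ C * (1 + Real.log k) ^ 20 := mul_le_mul_of_nonneg_left hx1 hC0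
      push_cast
      linarith
    · push Not at hbig
      obtain ⟨q, err, hq1, hq2, herr, herr2, hrec⟩ := hR k hbig
      have hk' : ((k - q + err : ℕ) : ℝ) = k - q + err := by
        push_cast [Nat.cast_sub hq2]
        ring
      by_cases h0 : k - q + err = 0
      · -- nothing is left
        refine ⟨q + 0, hrec 0 ?_, ?_⟩
        · rw [h0]
          exact hQ 0
        · have h1 : (q : ℝ) ≤ k := by exact_mod_cast hq2
          have h2 : 0 ≤ C * (1 + Real.log k) ^ 20 := mul_nonneg hC0 (by linarith)
          rw [add_zero]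
          linarith
      · have hlt : k - q + err < k := by omega
        obtain ⟨n, hn1, hn2⟩ := ih _ hlt (by omega)
        refine ⟨q + n, hrec n hn1, ?_⟩
        have hm1 : (1 : ℝ) ≤ ((k - q + err : ℕ) : ℝ) := by
          exact_mod_cast (by omega : 1 ≤ k - q + err)
        have hy0 : 0 ≤ Real.log ((k - q + err : ℕ) : ℝ) := Real.log_nonneg hm1
        have hxy : Real.log ((k - q + err : ℕ) : ℝ) + (q : ℝ) / (2 * k) ≤ Real.log k := by
          have h1 : Real.log (((k - q + err : ℕ) : ℝ) / k) ≤ ((k - q + err : ℕ) : ℝ) / k - 1 :=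
            Real.log_le_sub_one_of_pos (by positivity)
          rw [Real.log_div (by linarith) (by linarith)] at h1
          have h2 : ((k - q + err : ℕ) : ℝ) / k - 1 ≤ -((q : ℝ) / (2 * k)) := by
            rw [hk', div_sub_one (by linarith), ← neg_div, div_le_div_iff₀ (by linarith)
              (by linarith)]
            have h3 : (2 : ℝ) * err ≤ q := by exact_mod_cast herr
            nlinarith
          linarith
        have hq0 : (0 : ℝ) ≤ (q : ℝ) / (2 * k) := by positivity
        rw [hk'] at hn2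
        generalize hX : 1 + Real.log k = x at *
        generalize hY : 1 + Real.log ((k - q + err : ℕ) : ℝ) = y at *
        have hY' : 1 + Real.log ((k : ℝ) - q + err) = y := by rw [← hk']; exact hY
        rw [hY'] at hn2
        have hy1 : 0 ≤ y := by linarith
        have hyx : y + (q : ℝ) / (2 * k) ≤ x := by linarith
        have hyx' : y ≤ x := by linarith
        have h19 : y ^ 19 ≤ x ^ 19 := pow_le_pow_left₀ hy1 hyx' 19
        have h20 : x ^ 19 * (x - y) ≤ x ^ 20 - y ^ 20 := by
          have : y ^ 19 * y ≤ x ^ 19 * y := mul_le_mul_of_nonneg_right h19 hy1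
          nlinarith
        have hx19 : 0 ≤ x ^ 19 := by
          have : 0 ≤ x := by linarith
          positivity
        have he : (err : ℝ) ≤ C * (x ^ 20 - y ^ 20) := by
          have h1 : (err : ℝ) ≤ c' * q * x ^ 19 / k := by
            rw [le_div_iff₀ (by linarith)]
            refine herr2.trans ?_
            exact mul_le_mul_of_nonneg_right (mul_le_mul_of_nonneg_right hcc (by positivity)) hx19
          have h2 : c' * q * x ^ 19 / k = 2 * c' * (x ^ 19 * ((q : ℝ) / (2 * k))) := by
            field_simp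
          have h3 : x ^ 19 * ((q : ℝ) / (2 * k)) ≤ x ^ 19 * (x - y) :=
            mul_le_mul_of_nonneg_left (by linarith) hx19
          have h4 : 0 ≤ x ^ 19 * ((q : ℝ) / (2 * k)) := mul_nonneg hx19 hq0
          calc (err : ℝ) ≤ 2 * c' * (x ^ 19 * ((q : ℝ) / (2 * k))) := h1.trans h2.le
            _ ≤ C * (x ^ 19 * ((q : ℝ) / (2 * k))) := mul_le_mul_of_nonneg_right hC1 h4
            _ ≤ C * (x ^ 20 - y ^ 20) := mul_le_mul_of_nonneg_left (h3.trans h20) hC0
        push_cast
        nlinarith

end Pool.Agent.LAP.H50
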