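import Pool.Agent.Helper23_LAP.Stmts
import Pool.Agent.Helper81_LAX.Rec
import Pool.Agent.Helper37_LAX.Ori
import Pool.Agent.Helper3_LAX.Lfo

/-!
# Squad LAP: module REK (the recursion for large `k`)
-/

set_option autoImplicit false

namespace Pool.Agent.LAP.H50

open scoped Classical

/-- The numbers of the recursion. -/
theorem rek_num (M : ℕ) : ∃ k₀ : ℕ, ∀ k ≥ k₀, ∃ L q : ℕ, M ≤ L ∧ k ≤ 2 ^ L ∧ q = k / L ^ 16 ∧
    1 ≤ q ∧ q ≤ k ∧ 2 * (14 * L ^ 3) ≤ q ∧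
    ((14 * L ^ 3 : ℕ) : ℝ) * k ≤ 28 * 3 ^ 19 * q * (1 + Real.log k) ^ 19 := by
  have hlo := (Real.isLittleO_pow_log_id_atTop (n := 19)).def
    (c := 1 / (28 * 6 ^ 19)) (by positivity)
  have hev := (tendsto_natCast_atTop_atTop (R := ℝ)).eventually hlo
  obtain ⟨N, hN⟩ := Filter.eventually_atTop.mp hev
  refine ⟨N + 2 ^ M + 3, fun k hk => ?_⟩
  have h2M : 0 < 2 ^ M := by positivity
  have hkN : N ≤ k := by omega
  have hkM : 2 ^ M ≤ k := by omega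
  have hk3 : 3 ≤ k := by omega
  have hk0 : k ≠ 0 := by omega
  have hkr : (3 : ℝ) ≤ k := by exact_mod_cast hk3
  have hlog1 : 1 ≤ Real.log k := by
    rw [Real.le_log_iff_exp_le (by linarith)]
    have := Real.exp_one_lt_d9
    linarith
  have hML : M ≤ Nat.log 2 k := Nat.le_log_of_pow_le (by norm_num) hkM
  have hkL : k ≤ 2 ^ (Nat.log 2 k + 1) := (Nat.lt_pow_succ_log_self (by norm_num) k).le
  have hLr : ((Nat.log 2 k + 1 : ℕ) : ℝ) ≤ 3 * (1 + Real.log k) := by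
    have h1 : ((2 : ℝ)) ^ Nat.log 2 k ≤ k := by exact_mod_cast Nat.pow_log_le_self 2 hk0
    have h2 : Real.log ((2 : ℝ) ^ Nat.log 2 k) ≤ Real.log k := Real.log_le_log (by positivity) h1
    rw [Real.log_pow] at h2
    have h3 := Real.log_two_gt_d9
    have h4 : (0 : ℝ) ≤ (Nat.log 2 k : ℕ) := by positivity
    push_cast
    nlinarith
  have hNk := hN k hkN
  rw [Real.norm_of_nonneg (by positivity), id, Real.norm_of_nonneg (by positivity)] at hNk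
  have hbig : 28 * (Nat.log 2 k + 1) ^ 19 ≤ k := by
    have h1 : (28 : ℝ) * ((Nat.log 2 k + 1 : ℕ) : ℝ) ^ 19 ≤ k := by
      have h2 : ((Nat.log 2 k + 1 : ℕ) : ℝ) ≤ 6 * Real.log k := by linarith
      have h3 : ((Nat.log 2 k + 1 : ℕ) : ℝ) ^ 19 ≤ (6 * Real.log k) ^ 19 :=
        pow_le_pow_left₀ (by positivity) h2 19
      rw [mul_pow] at h3
      calc (28 : ℝ) * ((Nat.log 2 k + 1 : ℕ) : ℝ) ^ 19 ≤ 28 * (6 ^ 19 * Real.log k ^ 19) :=
            mul_le_mul_of_nonneg_left h3 (by norm_num)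
        _ = (28 * 6 ^ 19) * Real.log k ^ 19 := by ring
        _ ≤ (28 * 6 ^ 19) * (1 / (28 * 6 ^ 19) * k) :=
            mul_le_mul_of_nonneg_left hNk (by norm_num)
        _ = k := by field_simp
    exact_mod_cast h1
  generalize hL : Nat.log 2 k + 1 = L at *
  have hL1 : 1 ≤ L := by omega
  have hLp : 0 < L ^ 16 := by positivity
  have hq2 : 2 * (14 * L ^ 3) ≤ k / L ^ 16 := by
    rw [Nat.le_div_iff_mul_le hLp]
    calc 2 * (14 * L ^ 3) * L ^ 16 = 28 * L ^ 19 := by ring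
      _ ≤ k := hbig
  have hL3 : 1 ≤ L ^ 3 := Nat.one_le_pow _ _ hL1
  have hq1 : 1 ≤ k / L ^ 16 := by omega
  refine ⟨L, k / L ^ 16, by omega, hkL, rfl, hq1, Nat.div_le_self _ _, hq2, ?_⟩
  generalize hq : k / L ^ 16 = q at *
  have hkq : k ≤ 2 * L ^ 16 * q := by
    have h1 := Nat.div_add_mod k (L ^ 16)
    have h2 := Nat.mod_lt k hLp
    rw [hq] at h1
    nlinarith
  have hkqr : (k : ℝ) ≤ 2 * (L : ℝ) ^ 16 * q := by exact_mod_cast hkq
  have hL19 : (L : ℝ) ^ 19 ≤ (3 * (1 + Real.log k)) ^ 19 := pow_le_pow_left₀ (by positivity) hLr 19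
  rw [mul_pow] at hL19
  push_cast
  calc (14 * (L : ℝ) ^ 3) * k ≤ (14 * (L : ℝ) ^ 3) * (2 * (L : ℝ) ^ 16 * q) :=
        mul_le_mul_of_nonneg_left hkqr (by positivity)
    _ = 28 * q * (L : ℝ) ^ 19 := by ring
    _ ≤ 28 * q * (3 ^ 19 * (1 + Real.log k) ^ 19) :=
        mul_le_mul_of_nonneg_left hL19 (by positivity)
    _ = 28 * 3 ^ 19 * q * (1 + Real.log k) ^ 19 := by ring

/-- REK. -/
theorem rek (hR : RNDStmt) : REKStmt := by
  obtain ⟨k₀, hk₀⟩ := rek_num (10 ^ 4)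
  refine ⟨k₀, fun k hk => ?_⟩
  obtain ⟨L, q, hML, hkL, hq, hq1, hqk, hq2, hb⟩ := hk₀ k hk
  refine ⟨q, 14 * L ^ 3, hq1, hqk, hq2, hb, ?_⟩
  exact Pool.Agent.LAX.H81.rec Pool.Agent.LAX.H37.ori Pool.Agent.LAX.H3.lfo k q (14 * L ^ 3)
    (fun V _ E hE => hq ▸ hR k L hML hkL V E hE) hqk

end Pool.Agent.LAP.H50
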